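import Pool.Agent.W525.CB.Stm

/-!
# Comparison of the volume forms for the transposition of `0` and `1` (part V01 of project CB)
-/

namespace Pool.Agent.W196.CB

open Pool.Agent.W525.CB

section alt

variable {L V : Type} [Field L] [AddCommGroup V] [Module L V]

/-- an alternating form on linear combinations of a family -/
theorem alt_mat {ι : Type} [Fintype ι] [DecidableEq ι] (A : V [⋀^ι]→ₗ[L] L) (c : ι → V)
    (M : Matrix ι ι L) : A (fun i => ∑ j, M i j • c j) = M.det * A c := by
  have key := AlternatingMap.eq_smul_basis_det (Pi.basisFun L ι)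
    (A.compLinearMap (Fintype.linearCombination L c))
  have h1 := congrArg (fun B : (ι → L) [⋀^ι]→ₗ[L] L => B M) key
  simp only [AlternatingMap.compLinearMap_apply, AlternatingMap.smul_apply, Pi.basisFun_det,
    smul_eq_mul] at h1
  have h2 : (fun i => (Fintype.linearCombination L c) (M i)) =
      fun i => ∑ j, M i j • c j := by
    funext i
    rw [Fintype.linearCombination_apply]
  have h3 : (fun i => (Fintype.linearCombination L c) ((Pi.basisFun L ι) i)) = c := by
    funext i
    rw [Pi.basisFun_apply, Fintype.linearCombination_apply_single, one_smul]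
  rw [h2, h3] at h1
  rw [h1, mul_comm]
  rfl

/-- block triangular change of a family -/
theorem alt_block {m n : ℕ} (A : V [⋀^(Fin m ⊕ Fin n)]→ₗ[L] L) (c c' : Fin m ⊕ Fin n → V)
    (P : Matrix (Fin m) (Fin m) L) (B : Matrix (Fin m) (Fin n) L) (Q : Matrix (Fin n) (Fin n) L)
    (h1 : ∀ i, c' (Sum.inl i) = ∑ j, P i j • c (Sum.inl j) + ∑ j, B i j • c (Sum.inr j))
    (h2 : ∀ i, c' (Sum.inr i) = ∑ j, Q i j • c (Sum.inr j)) :
    A c' = P.det * Q.det * A c := by
  rw [← Matrix.det_fromBlocks_zero₂₁ P B Q, ← alt_mat]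
  congr 1
  funext i
  rcases i with i | i
  · rw [h1, Fintype.sum_sum_type]
    simp only [Matrix.fromBlocks_apply₁₁, Matrix.fromBlocks_apply₁₂]
  · rw [h2, Fintype.sum_sum_type]
    simp only [Matrix.fromBlocks_apply₂₁, Matrix.fromBlocks_apply₂₂, Matrix.zero_apply, zero_smul,
      Finset.sum_const_zero, zero_add]

theorem det_smul_one_add {n : ℕ} (a : L) (u v : Fin n → L) :
    Matrix.det (Matrix.of fun i j => a * ((1 : Matrix (Fin n) (Fin n) L) i j + u i * v j)) =
      a ^ n * (1 + ∑ i, u i * v i) := by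
  have h1 : (Matrix.of fun i j => a * ((1 : Matrix (Fin n) (Fin n) L) i j + u i * v j)) =
      a • (1 + Matrix.replicateCol Unit u * Matrix.replicateRow Unit v) := by
    ext i j
    simp [Matrix.mul_apply]
  rw [h1, Matrix.det_smul, Matrix.det_one_add_replicateCol_mul_replicateRow, Fintype.card_fin]
  congr 2
  simp only [dotProduct]
  exact Finset.sum_congr rfl fun i _ => mul_comm _ _

end alt

section pm

variable {L : Type} [Field L]

theorem eqPM_of_pow {a b : L} (m : ℕ) (h : a = (-1) ^ m * b) : EqPM a b := by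
  rcases neg_one_pow_eq_or L m with h1 | h1
  · left; rw [h, h1, one_mul]
  · right; rw [h, h1, neg_one_mul]

end pm

theorem main : S_REL → S_DIF → S_V01 := by
  intro hREL hDIF n hn L _ _ _ x y hn' hdat σ A
  obtain ⟨r1, -, r3, r4⟩ := hREL n L x y hn hdat σ
  obtain ⟨r1', -, -, -⟩ := hREL n L x y hn hdat (σ * Equiv.swap 0 1)
  obtain ⟨-, d2, d3⟩ := hDIF n L x y hn hdat σ
  have e0 : (σ * Equiv.swap 0 1 : Equiv.Perm (Fin (n + 3))) 0 = σ 1 := by simp
  have e1 : (σ * Equiv.swap 0 1 : Equiv.Perm (Fin (n + 3))) 1 = σ 0 := by simp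
  have e2 : ∀ i : Fin (n + 1), (σ * Equiv.swap 0 1 : Equiv.Perm (Fin (n + 3))) i.succ.succ =
      σ i.succ.succ := by
    intro i
    rw [Equiv.Perm.mul_apply, Equiv.swap_apply_of_ne_of_ne]
    · exact Fin.succ_ne_zero _
    · intro h
      rw [← Fin.succ_zero_eq_one] at h
      exact Fin.succ_ne_zero _ (Fin.succ_injective _ h)
  -- the new coordinates
  have hs' : ∀ i : Fin (n + 1), ss x (σ * Equiv.swap 0 1) i.succ.succ =
      ss x σ i.succ.succ * (ss x σ 1)⁻¹ := by
    intro i
    have h0 := hdat.nx (σ 0)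
    have h1 := hdat.nx (σ 1)
    simp only [ss, e0, e2]
    field_simp
  have ht' : ∀ i : Fin (n + 1), tt x y (σ * Equiv.swap 0 1) i.succ.succ =
      ww x y σ i.succ.succ := by
    intro i
    rw [r1]
    simp only [tt, e0, e1, e2]
  have hw' : ∀ i : Fin (n + 1), ww x y (σ * Equiv.swap 0 1) i.succ.succ =
      tt x y σ i.succ.succ := by
    intro i
    rw [r1']
    simp only [tt, e0, e1, e2]
  have hs1 : ss x σ 1 ≠ 0 := div_ne_zero (hdat.nx _) (hdat.nx _)
  have e22 : (2 : Fin (n + 3)) = (0 : Fin (n + 1)).succ.succ := by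
    rw [Fin.succ_zero_eq_one, Fin.succ_one_eq_two]
  have hW : ww x y σ 2 ≠ 0 := by
    rw [r1]
    refine div_ne_zero (hdat.nu _ _ ?_) (hdat.nu _ _ ?_)
    · intro h
      have := σ.injective h
      rw [e22, ← Fin.succ_zero_eq_one] at this
      exact Fin.succ_ne_zero _ (Fin.succ_injective _ this).symm
    · intro h
      have := σ.injective h
      rw [← Fin.succ_zero_eq_one] at this
      exact Fin.succ_ne_zero _ this
  rw [e22] at hW
  rw [Fin.sum_univ_succ] at r3 r4 d2 d3
  have e0' : (σ * Equiv.swap 0 1 : Equiv.Perm (Fin (n + 3))) 0 = σ 1 := e0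
  rw [e22, hw' 0, e0']
  have hx1 : x (σ 1) = ss x σ 1 * x (σ 0) := by
    rw [ss, div_mul_cancel₀ _ (hdat.nx _)]
  rw [hx1]
  set D := KaehlerDifferential.D ℤ L with hD
  -- abbreviations
  set s1 := ss x σ 1 with hs1d
  set S := ss x σ (0 : Fin (n + 1)).succ.succ with hS
  set T := tt x y σ (0 : Fin (n + 1)).succ.succ with hT
  set W := ww x y σ (0 : Fin (n + 1)).succ.succ with hWd
  set s : Fin n → L := fun i => ss x σ i.succ.succ.succ with hsd
  set t : Fin n → L := fun i => tt x y σ i.succ.succ.succ with htd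
  set w : Fin n → L := fun i => ww x y σ i.succ.succ.succ with hwd
  have r3' : s1 + (S * T ^ (n + 2) + ∑ i, s i * t i ^ (n + 2)) = 0 := r3
  have r4' : S * W ^ (n + 2) + ∑ i, s i * w i ^ (n + 2) = -1 := r4
  have d2' : D s1 = -(T ^ (n + 2) • D S + ∑ i, t i ^ (n + 2) • D (s i)) := d2
  have d3' : W ^ (n + 2) • D S + ∑ i, w i ^ (n + 2) • D (s i) = 0 := d3
  have hWp : W ^ (n + 2) ≠ 0 := pow_ne_zero _ hW
  -- `D S` and `D s1` in terms of the `D (s i)`
  set bS : Fin n → L := fun i => -(w i ^ (n + 2) / W ^ (n + 2)) with hbS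
  set v : Fin n → L := fun i => t i ^ (n + 2) - T ^ (n + 2) * (w i ^ (n + 2) / W ^ (n + 2)) with hv
  have DS : D S = ∑ i, bS i • D (s i) := by
    have h1 : D S = -((W ^ (n + 2))⁻¹ • ∑ i, w i ^ (n + 2) • D (s i)) := by
      rw [eq_neg_iff_add_eq_zero, ← smul_right_injective _ hWp |>.eq_iff]
      simp only [smul_add, smul_zero, smul_inv_smul₀ hWp]
      exact d3'
    rw [h1, Finset.smul_sum, ← Finset.sum_neg_distrib]
    refine Finset.sum_congr rfl fun i _ => ?_
    rw [hbS, smul_smul, ← neg_smul]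
    congr 1
    ring
  have Ds1 : D s1 = -∑ i, v i • D (s i) := by
    rw [d2', DS, Finset.smul_sum, ← Finset.sum_add_distrib]
    congr 1
    refine Finset.sum_congr rfl fun i _ => ?_
    rw [smul_smul, ← add_smul]
    congr 1
    simp only [hbS, hv]
    ring
  have Dall : ∀ i : Fin (n + 1), ∃ b : Fin n → L, D (ss x σ i.succ.succ) =
      ∑ j, b j • D (s j) := by
    intro i
    refine Fin.cases ⟨bS, DS⟩ (fun i => ?_) i
    refine ⟨Pi.single i 1, ?_⟩
    rw [Finset.sum_eq_single i]
    · rw [Pi.single_eq_same, one_smul]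
    · intro j _ hj
      rw [Pi.single_eq_of_ne hj, zero_smul]
    · intro h; exact absurd (Finset.mem_univ _) h
  choose bb hbb using Dall
  -- the matrix
  have key := alt_block A (cfam x y σ) (cfam x y (σ * Equiv.swap 0 1))
    ((-s1 ^ 2) • (1 : Matrix (Fin (n + 1)) (Fin (n + 1)) L))
    (Matrix.of fun i j => 2 * ss x σ i.succ.succ * bb i j + 2 * s1 * tt x y σ i.succ.succ * v j)
    (Matrix.of fun i j => s1⁻¹ * ((1 : Matrix (Fin n) (Fin n) L) i j + (s i / s1) * v j)) ?_ ?_
  · rw [key, Matrix.det_smul, Matrix.det_one, mul_one, Fintype.card_fin, det_smul_one_add]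
    have hsum : 1 + ∑ i, s i / s1 * v i = T ^ (n + 2) / (s1 * W ^ (n + 2)) := by
      have h1 : ∑ i, s i / s1 * v i = s1⁻¹ * ((∑ i, s i * t i ^ (n + 2)) -
          T ^ (n + 2) / W ^ (n + 2) * ∑ i, s i * w i ^ (n + 2)) := by
        rw [Finset.mul_sum, ← Finset.sum_sub_distrib, Finset.mul_sum]
        refine Finset.sum_congr rfl fun i _ => ?_
        simp only [hv]
        ring
      have h2 : ∑ i, s i * t i ^ (n + 2) = -s1 - S * T ^ (n + 2) := by linear_combination r3'
      have h3 : ∑ i, s i * w i ^ (n + 2) = -1 - S * W ^ (n + 2) := by linear_combination r4'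
      rw [h1, h2, h3]
      field_simp
      ring
    rw [hsum]
    apply eqPM_of_pow (n + 1)
    have e3 : (-s1 ^ 2) ^ (n + 1) = (-1) ^ (n + 1) * s1 ^ (n + 1) * s1 ^ (n + 1) := by
      rw [neg_pow, mul_assoc, ← pow_add, ← pow_mul]
      congr 2
      ring
    have e4 : s1 ^ (n + 1) * (s1⁻¹ ^ n * (T ^ (n + 2) / (s1 * W ^ (n + 2)))) =
        T ^ (n + 2) / W ^ (n + 2) := by
      rw [inv_pow]
      have : s1 ^ n ≠ 0 := pow_ne_zero _ hs1
      field_simp
      try ring
    calc (-s1 ^ 2) ^ (n + 1) * (s1⁻¹ ^ n * (T ^ (n + 2) / (s1 * W ^ (n + 2)))) * A (cfam x y σ) *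
          (W ^ (n + 2) * x (σ 0) ^ (n + 1))
        = (-1) ^ (n + 1) * s1 ^ (n + 1) *
          (s1 ^ (n + 1) * (s1⁻¹ ^ n * (T ^ (n + 2) / (s1 * W ^ (n + 2))))) * A (cfam x y σ) *
          (W ^ (n + 2) * x (σ 0) ^ (n + 1)) := by rw [e3]; ring
      _ = (-1) ^ (n + 1) * (A (cfam x y σ) * (T ^ (n + 2) * (s1 * x (σ 0)) ^ (n + 1))) := by
          rw [e4, mul_pow]
          field_simp
  · intro i
    have h1 : cfam x y (σ * Equiv.swap 0 1) (Sum.inl i) = D (ww x y σ i.succ.succ) := by
      simp only [cfam, Sum.elim_inl, ht']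
      rfl
    rw [h1]
    have h2 : D (ww x y σ i.succ.succ) = (2 * ss x σ i.succ.succ) • D (ss x σ i.succ.succ) -
        (2 * s1 * tt x y σ i.succ.succ) • D s1 - s1 ^ 2 • D (tt x y σ i.succ.succ) := by
      rw [ww, map_sub, Derivation.leibniz, Derivation.leibniz_pow, Derivation.leibniz_pow]
      simp only [Nat.add_one_sub_one, pow_one, ← hs1d]
      module
    rw [h2, hbb i, Ds1]
    have h3 : ∑ j, ((-s1 ^ 2) • (1 : Matrix (Fin (n + 1)) (Fin (n + 1)) L)) i j •
        cfam x y σ (Sum.inl j) = -(s1 ^ 2 • D (tt x y σ i.succ.succ)) := by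
      rw [Finset.sum_eq_single i]
      · rw [Matrix.smul_apply, Matrix.one_apply_eq]
        simp only [cfam, Sum.elim_inl, smul_eq_mul, mul_one, neg_smul]
        rfl
      · intro j _ hj
        rw [Matrix.smul_apply, Matrix.one_apply_ne hj.symm, smul_zero, zero_smul]
      · intro h; exact absurd (Finset.mem_univ _) h
    rw [h3]
    have h4 : ∑ j, (Matrix.of fun (i : Fin (n + 1)) (j : Fin n) =>
        2 * ss x σ i.succ.succ * bb i j + 2 * s1 * tt x y σ i.succ.succ * v j) i j •
        cfam x y σ (Sum.inr j) = (2 * ss x σ i.succ.succ) • ∑ j, bb i j • D (s j) +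
          (2 * s1 * tt x y σ i.succ.succ) • ∑ j, v j • D (s j) := by
      rw [Finset.smul_sum, Finset.smul_sum, ← Finset.sum_add_distrib]
      refine Finset.sum_congr rfl fun j _ => ?_
      have h5 : cfam x y σ (Sum.inr j) = D (s j) := rfl
      rw [h5, Matrix.of_apply, smul_smul, smul_smul, ← add_smul]
    rw [h4]
    module
  · intro i
    have h1 : cfam x y (σ * Equiv.swap 0 1) (Sum.inr i) = D (s i * s1⁻¹) := by
      simp only [cfam, Sum.elim_inr, hs']
      rfl
    rw [h1, Derivation.leibniz, Derivation.leibniz_inv, Ds1]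
    have h2 : ∀ j, (Matrix.of fun (i j : Fin n) => s1⁻¹ * ((1 : Matrix (Fin n) (Fin n) L) i j +
        (s i / s1) * v j)) i j • cfam x y σ (Sum.inr j) =
        (s1⁻¹ * (1 : Matrix (Fin n) (Fin n) L) i j) • D (s j) +
          (s1⁻¹ * (s i / s1)) • (v j • D (s j)) := by
      intro j
      have h5 : cfam x y σ (Sum.inr j) = D (s j) := rfl
      rw [h5, Matrix.of_apply, smul_smul, ← add_smul]
      congr 1
      ring
    simp only [h2]
    rw [Finset.sum_add_distrib, ← Finset.smul_sum]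
    have h3 : ∑ j, (s1⁻¹ * (1 : Matrix (Fin n) (Fin n) L) i j) • D (s j) = s1⁻¹ • D (s i) := by
      rw [Finset.sum_eq_single i]
      · rw [Matrix.one_apply_eq, mul_one]
      · intro j _ hj
        rw [Matrix.one_apply_ne hj.symm, mul_zero, zero_smul]
      · intro h; exact absurd (Finset.mem_univ _) h
    rw [h3]
    have h4 : s i • -s1⁻¹ ^ 2 • -∑ j, v j • D (s j) =
        (s1⁻¹ * (s i / s1)) • ∑ j, v j • D (s j) := by
      rw [div_eq_mul_inv]
      module
    rw [h4, add_comm]

end Pool.Agent.W196.CB
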